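import Pool.Agent.N370.CF.Pack

/-!
# (1,1,2,3)-packing colourings of claw-free cubic graphs

Positive answer to Q1 of MP_b5f1b3_co: every claw-free cubic graph is (1,1,2,3)-packing colourable.

Outline.  Every vertex is in a triangle; the components of the graph of all edges in triangles
(units) are triangles (thin units), and diamonds and copies of `K_4` (fat units); the remaining
edges form a matching.  The units get labels `X` and `Y` such that there is no edge between units
with label `Y`, each unit with label `X` has an edge to a unit with label `Y`, and each fat unit with
label `X` has an edge to a fat unit with label `Y`.  The 3-packing has one vertex in each unit with
label `Y`; in the thin ones it is found with Hall's theorem, such that no two of the chosen vertices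
have their outer neighbours in one thin unit.  The 2-packing has one vertex in each unit with
label `X`, with its outer neighbour in a unit with label `Y` for thin units, and in some of the fat
units with label `Y` the second middle vertex.  The remaining graph is bipartite: a minimal
non-bipartite part has only vertices of thin units, and its edges are a union of two perfect
matchings.
-/

set_option autoImplicit false

namespace Pool.Agent.Results.MP_b5f1b3_co.PackingColouring

open Pool.Agent.N370.CF

theorem result (V : Type*) [Fintype V] (G : SimpleGraph V) [DecidableRel G.Adj]
    (hcubic : G.IsRegularOfDegree 3) (hclaw : ClawFree G) :
    PackingColourable G ![1, 1, 2, 3] :=
  colourable_of_cc (cc_of hcubic hclaw)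

end Pool.Agent.Results.MP_b5f1b3_co.PackingColouring
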